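import Pool.Agent.H55.BP.Targets

/-!
Row CER of the board bpl_modules: finite certificates with integer points.
-/

set_option autoImplicit false

open Finset

namespace Pool.Agent.H33.BPL

open Pool.Agent.H55.BP

/-- an integer point as a complex number -/
def cp (x : ℤ × ℤ) : ℂ := ⟨(x.1 : ℝ), (x.2 : ℝ)⟩

theorem cp_inj : Function.Injective cp := by
  rintro ⟨a, b⟩ ⟨c, d⟩ h
  have h1 := congrArg Complex.re h
  have h2 := congrArg Complex.im h
  simp only [cp, Int.cast_inj] at h1 h2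
  rw [h1, h2]

theorem ori_cp (a b c : ℤ × ℤ) : ori (cp a) (cp b) (cp c) = (oriZ a b c : ℝ) := by
  unfold ori oriZ cp
  push_cast
  ring

theorem ori_swap (a b c : ℂ) : ori b a c = - ori a b c := by
  unfold ori
  ring

theorem sep_left (a b c d : ℂ) : Sep b a c d ↔ Sep a b c d := by
  unfold Pool.Agent.H55.BP.Sep
  rw [ori_swap a b c, ori_swap a b d]
  constructor
  · rintro (⟨h1, h2⟩ | ⟨h1, h2⟩ | ⟨h1, h2⟩ | ⟨h1, h2⟩)
    · exact Or.inr (Or.inl ⟨by linarith, by linarith⟩)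
    · exact Or.inl ⟨by linarith, by linarith⟩
    · exact Or.inr (Or.inr (Or.inl ⟨h2, h1⟩))
    · exact Or.inr (Or.inr (Or.inr ⟨h2, h1⟩))
  · rintro (⟨h1, h2⟩ | ⟨h1, h2⟩ | ⟨h1, h2⟩ | ⟨h1, h2⟩)
    · exact Or.inr (Or.inl ⟨by linarith, by linarith⟩)
    · exact Or.inl ⟨by linarith, by linarith⟩
    · exact Or.inr (Or.inr (Or.inl ⟨h2, h1⟩))
    · exact Or.inr (Or.inr (Or.inr ⟨h2, h1⟩))

theorem sep_pair (a b c d : ℂ) : Sep c d a b ↔ Sep a b c d := by
  unfold Pool.Agent.H55.BP.Sep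
  tauto

theorem sep_right (a b c d : ℂ) : Sep a b d c ↔ Sep a b c d := by
  rw [← sep_pair, sep_left, sep_pair]

theorem sep_cp (a b c d : ℤ × ℤ) : Sep (cp a) (cp b) (cp c) (cp d) ↔ sepZ a b c d = true := by
  unfold Pool.Agent.H55.BP.Sep sepZ
  rw [ori_cp, ori_cp, ori_cp, ori_cp]
  simp only [Bool.or_eq_true, Bool.and_eq_true, decide_eq_true_eq, Int.cast_pos, Int.cast_lt_zero,
    or_assoc]

theorem pf_CER (hSL : T_SL) : T_CER := by
  intro n m k A P hP hori hk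
  have hinj : Function.Injective fun v => cp (P v) := cp_inj.comp hP
  obtain ⟨D, hD⟩ := hSL (BG A) (fun v => cp (P v)) hinj (by
    rintro u v w (⟨i, j, rfl, rfl, h⟩ | ⟨i, j, rfl, rfl, h⟩) hwu hwv
    · rw [ori_cp]
      exact_mod_cast hori i j h w hwu hwv
    · rw [ori_swap, ori_cp, neg_ne_zero]
      exact_mod_cast hori i j h w hwv hwu)
  refine ⟨D, hD.trans (le_trans ?_ hk)⟩
  obtain ⟨F, hF⟩ : ∃ F : Finset ((Fin n × Fin m) × (Fin n × Fin m)), F =
    ((univ : Finset ((Fin n × Fin m) × (Fin n × Fin m))).filter fun x =>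
      x.1.1 < x.2.1 ∧ x.1.2 ≠ x.2.2 ∧ A x.1.1 x.1.2 = true ∧ A x.2.1 x.2.2 = true ∧
        sepZ (P (Sum.inl x.1.1)) (P (Sum.inr x.1.2)) (P (Sum.inl x.2.1)) (P (Sum.inr x.2.2)) =
          false) := ⟨_, rfl⟩
  rw [← hF]
  obtain ⟨g, hg⟩ : ∃ g : (Fin n × Fin m) × (Fin n × Fin m) → Sym2 (Sym2 (Fin n ⊕ Fin m)),
    g = fun x => s(s(Sum.inl x.1.1, Sum.inr x.1.2), s(Sum.inl x.2.1, Sum.inr x.2.2)) := ⟨_, rfl⟩
  have key : ∀ (i : Fin n) (j : Fin m) (i' : Fin n) (j' : Fin m), A i j = true → A i' j' = true →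
      i ≠ i' → j ≠ j' → ¬ Sep (cp (P (Sum.inl i))) (cp (P (Sum.inr j))) (cp (P (Sum.inl i')))
        (cp (P (Sum.inr j'))) →
      (s(s(Sum.inl i, Sum.inr j), s(Sum.inl i', Sum.inr j')) : Sym2 (Sym2 (Fin n ⊕ Fin m))) ∈
        g '' (F : Set ((Fin n × Fin m) × (Fin n × Fin m))) := by
    have key1 : ∀ (i : Fin n) (j : Fin m) (i' : Fin n) (j' : Fin m), A i j = true →
        A i' j' = true → i < i' → j ≠ j' → ¬ Sep (cp (P (Sum.inl i))) (cp (P (Sum.inr j)))
          (cp (P (Sum.inl i'))) (cp (P (Sum.inr j'))) →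
        (s(s(Sum.inl i, Sum.inr j), s(Sum.inl i', Sum.inr j')) :
          Sym2 (Sym2 (Fin n ⊕ Fin m))) ∈ g '' (F : Set ((Fin n × Fin m) × (Fin n × Fin m))) := by
      intro i j i' j' hA hA' hi hj hs
      refine ⟨((i, j), (i', j')), ?_, by rw [hg]⟩
      rw [Finset.mem_coe, hF, Finset.mem_filter]
      rw [sep_cp, Bool.not_eq_true] at hs
      exact ⟨Finset.mem_univ _, hi, hj, hA, hA', hs⟩
    intro i j i' j' hA hA' hi hj hs
    rcases lt_or_gt_of_ne hi with h | h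
    · exact key1 i j i' j' hA hA' h hj hs
    · rw [Sym2.eq_swap]
      exact key1 i' j' i j hA' hA h hj.symm (by rwa [sep_pair])
  have hsub : badPairs (BG A) (fun v => cp (P v)) ⊆
      g '' (F : Set ((Fin n × Fin m) × (Fin n × Fin m))) := by
    rintro x ⟨a, b, c, d, hab, hcd, hac, had, hbc, hbd, rfl, hs⟩
    rcases hab with ⟨i, j, rfl, rfl, h⟩ | ⟨i, j, rfl, rfl, h⟩ <;>
      rcases hcd with ⟨i', j', rfl, rfl, h'⟩ | ⟨i', j', rfl, rfl, h'⟩
    · exact key i j i' j' h h' (fun h => hac (by rw [h])) (fun h => hbd (by rw [h])) hs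
    · rw [Sym2.eq_swap (a := Sum.inr j') (b := Sum.inl i')]
      refine key i j i' j' h h' (fun h => had (by rw [h])) (fun h => hbc (by rw [h])) ?_
      rwa [sep_right] at hs
    · rw [Sym2.eq_swap (a := Sum.inr j) (b := Sum.inl i)]
      refine key i j i' j' h h' (fun h => hbc (by rw [h])) (fun h => had (by rw [h])) ?_
      rwa [sep_left] at hs
    · rw [Sym2.eq_swap (a := Sum.inr j') (b := Sum.inl i'),
        Sym2.eq_swap (a := Sum.inr j) (b := Sum.inl i)]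
      refine key i j i' j' h h' (fun h => hbd (by rw [h])) (fun h => hac (by rw [h])) ?_
      rwa [sep_left, sep_right] at hs
  calc (badPairs (BG A) (fun v => cp (P v))).ncard
      ≤ (g '' (F : Set ((Fin n × Fin m) × (Fin n × Fin m)))).ncard :=
        Set.ncard_le_ncard hsub ((Finset.finite_toSet F).image g)
    _ ≤ (F : Set ((Fin n × Fin m) × (Fin n × Fin m))).ncard :=
        Set.ncard_image_le (Finset.finite_toSet F)
    _ = F.card := Set.ncard_coe_finset F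

end Pool.Agent.H33.BPL
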