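import Pool.Agent.H55.BP.Targets

/-!
Row EUL of the board bpl_modules: the Euler bound for biplanar drawings of `K_{n,m}`.
-/

set_option autoImplicit false

open Finset

namespace Pool.Agent.H33.BPL

open Pool.Agent.H55.BP

theorem card_edges (n m : ℕ) : (K n m).edgeSet.ncard = n * m := by
  have h1 : (K n m).edgeSet = Set.range fun x : Fin n × Fin m =>
      (s(Sum.inl x.1, Sum.inr x.2) : Sym2 (Fin n ⊕ Fin m)) := by
    ext e
    induction e using Sym2.ind with
    | _ u v =>
      rw [SimpleGraph.mem_edgeSet, completeBipartiteGraph_adj, Set.mem_range]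
      constructor
      · rcases u with i | i <;> rcases v with j | j
        · simp
        · intro _
          exact ⟨(i, j), rfl⟩
        · intro _
          exact ⟨(j, i), Sym2.eq_swap⟩
        · simp
      · rintro ⟨⟨i, j⟩, h⟩
        rw [Sym2.eq_iff] at h
        rcases h with ⟨rfl, rfl⟩ | ⟨rfl, rfl⟩
        · exact Or.inl ⟨rfl, rfl⟩
        · exact Or.inr ⟨rfl, rfl⟩
  have h2 : Function.Injective fun x : Fin n × Fin m =>
      (s(Sum.inl x.1, Sum.inr x.2) : Sym2 (Fin n ⊕ Fin m)) := by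
    rintro ⟨i, j⟩ ⟨i', j'⟩ h
    simp only [Sym2.eq_iff, Sum.inl.injEq, Sum.inr.injEq, reduceCtorEq, and_self, or_false] at h
    rw [h.1, h.2]
  rw [h1, ← Set.image_univ, Set.ncard_image_of_injective _ h2, Set.ncard_univ, Nat.card_prod,
    Nat.card_fin, Nat.card_fin]

theorem pf_EUL (hCRB : T_CRB) : T_EUL := by
  intro n m B h
  have hle1 : B.G₁ ≤ K n m := le_sup_left.trans_eq B.sup
  have hle2 : B.G₂ ≤ K n m := le_sup_right.trans_eq B.sup
  have hc : ∀ u v, (K n m).Adj u v → Sum.isLeft u ≠ Sum.isLeft v := by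
    intro u v huv
    rw [completeBipartiteGraph_adj] at huv
    rcases u with i | i <;> rcases v with j | j <;> simp_all
  have hcard : Nat.card (Fin n ⊕ Fin m) = n + m := by
    rw [Nat.card_sum, Nat.card_fin, Nat.card_fin]
  have h1 := hCRB B.G₁ Sum.isLeft (fun u v huv => hc u v (hle1 huv)) B.D₁ (by rw [hcard]; exact h)
  have h2 := hCRB B.G₂ Sum.isLeft (fun u v huv => hc u v (hle2 huv)) B.D₂ (by rw [hcard]; exact h)
  have h3 : B.G₁.edgeSet.ncard + B.G₂.edgeSet.ncard = n * m := by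
    refine Eq.trans ?_ (card_edges n m)
    refine Eq.trans ?_ (congrArg (fun G : SimpleGraph (Fin n ⊕ Fin m) => G.edgeSet.ncard) B.sup)
    show _ = (B.G₁ ⊔ B.G₂).edgeSet.ncard
    rw [SimpleGraph.edgeSet_sup, Set.ncard_union_eq (SimpleGraph.disjoint_edgeSet.2 B.disj)]
  rw [hcard, Nat.card_coe_set_eq] at h1 h2
  show n * m + 8 ≤ 4 * (n + m) + (B.D₁.crossings + B.D₂.crossings)
  omega

end Pool.Agent.H33.BPL
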